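import Pool.Agent.Work.MP_b5407d_pos_helper13.Blocks

/-! MP_b5407d_gt, block GLUE (helper29) -/

set_option autoImplicit false

namespace Pool.Agent.Work.MP_b5407d_pos_h29_glue

open Pool.LBM Pool.Agent.Work.MP_b5407d_pos_h13

theorem smono_of_step {r : ℕ} {X : ℕ → ℝ} (h : ∀ k < r, X k < X (k + 1)) :
    ∀ i j, i < j → j ≤ r → X i < X j := by
  intro i j hij
  induction j, (Nat.succ_le_of_lt hij) using Nat.le_induction with
  | base => intro hr; exact h i (by omega)
  | succ j hj ih =>
    intro hr
    exact lt_trans (ih (by omega) (by omega)) (h j (by omega))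

theorem santi_of_step {r : ℕ} {Y : ℕ → ℝ} (h : ∀ k < r, Y (k + 1) < Y k) :
    ∀ i j, i < j → j ≤ r → Y j < Y i := by
  intro i j hij
  induction j, (Nat.succ_le_of_lt hij) using Nat.le_induction with
  | base => intro hr; exact h i (by omega)
  | succ j hj ih =>
    intro hr
    exact lt_trans (h j (by omega)) (ih (by omega) (by omega))

/-- three consecutive slopes -/
theorem slope_trans {u v u' v' u'' v'' : ℝ} (hu : 0 < u) (hu' : 0 < u') (hu'' : 0 < u'')
    (h1 : v' * u < v * u') (h2 : v'' * u' < v' * u'') : v'' * u < v * u'' := by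
  have h3 : v'' / u'' < v' / u' := by rw [div_lt_div_iff₀ hu'' hu']; linarith
  have h4 : v' / u' < v / u := by rw [div_lt_div_iff₀ hu' hu]; linarith
  have h5 := lt_trans h3 h4
  rw [div_lt_div_iff₀ hu'' hu] at h5
  linarith

/-- convexity of the near chain, step `i` against step `j` -/
theorem slope_step {r : ℕ} {X Y : ℕ → ℝ}
    (hm : ∀ k < r, X k < X (k + 1) ∧ Y (k + 1) < Y k)
    (hc : ∀ k, k + 1 < r → (Y (k + 1) - Y (k + 2)) * (X (k + 1) - X k) <
      (Y k - Y (k + 1)) * (X (k + 2) - X (k + 1))) :
    ∀ i j, i < j → j < r →
      (Y j - Y (j + 1)) * (X (i + 1) - X i) < (Y i - Y (i + 1)) * (X (j + 1) - X j) := by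
  intro i j hij
  induction j, (Nat.succ_le_of_lt hij) using Nat.le_induction with
  | base => intro hr; exact hc i (by omega)
  | succ j hj ih =>
    intro hr
    have h1 := ih (by omega) (by omega)
    have h2 := hc j (by omega)
    exact slope_trans (by linarith [(hm i (by omega)).1]) (by linarith [(hm j (by omega)).1])
      (by linarith [(hm (j + 1) (by omega)).1]) h1 h2

/-- step `l` against the chord `i..j`, `i < j ≤ l` -/
theorem slope_chord {r : ℕ} {X Y : ℕ → ℝ}
    (hs : ∀ i j, i < j → j < r →
      (Y j - Y (j + 1)) * (X (i + 1) - X i) < (Y i - Y (i + 1)) * (X (j + 1) - X j))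
    (l : ℕ) (hl : l < r) :
    ∀ i j, i < j → j ≤ l →
      (Y l - Y (l + 1)) * (X j - X i) < (Y i - Y j) * (X (l + 1) - X l) := by
  intro i j hij
  induction j, (Nat.succ_le_of_lt hij) using Nat.le_induction with
  | base => intro hr; exact hs i l (by omega) hl
  | succ j hj ih =>
    intro hr
    have h1 := ih (by omega) (by omega)
    have h2 := hs j l (by omega) hl
    nlinarith [h1, h2]

/-- chord `i..j` against chord `j..k` -/
theorem slope_chord2 {r : ℕ} {X Y : ℕ → ℝ}
    (hs : ∀ i j, i < j → j < r →
      (Y j - Y (j + 1)) * (X (i + 1) - X i) < (Y i - Y (i + 1)) * (X (j + 1) - X j))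
    (i j : ℕ) (hij : i < j) :
    ∀ k, j < k → k ≤ r →
      (Y j - Y k) * (X j - X i) < (Y i - Y j) * (X k - X j) := by
  intro k hjk
  induction k, (Nat.succ_le_of_lt hjk) using Nat.le_induction with
  | base => intro hr; exact slope_chord hs j (by omega) i j hij le_rfl
  | succ k hk ih =>
    intro hr
    have h1 := ih (by omega) (by omega)
    have h2 := slope_chord hs k (by omega) i j hij (by omega)
    nlinarith [h1, h2]

theorem near_conv {r : ℕ} {X Y : ℕ → ℝ}
    (hm : ∀ k < r, X k < X (k + 1) ∧ Y (k + 1) < Y k)
    (hc : ∀ k, k + 1 < r → (Y (k + 1) - Y (k + 2)) * (X (k + 1) - X k) <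
      (Y k - Y (k + 1)) * (X (k + 2) - X (k + 1)))
    (i j k : ℕ) (hij : i < j) (hjk : j < k) (hk : k ≤ r) :
    0 < (X j - X i) * (Y k - Y i) - (Y j - Y i) * (X k - X i) := by
  have := slope_chord2 (slope_step hm hc) i j hij k hjk hk
  nlinarith [this]

theorem blk_GLUE : Stmt_GLUE := by
  intro m r a b X Y hK hX0 hYr hm hc hr1 hXa hYb
  have hX := smono_of_step (r := r) (X := X) (fun k hk => (hm k hk).1)
  have hY := santi_of_step (r := r) (Y := Y) (fun k hk => (hm k hk).2)
  have hN := near_conv hm hc
  have hm0 : 0 < m := hK.lt
  have ha0 : a 0 = 0 := hK.a0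
  have hb0 : b 0 = 0 := hK.br
  have hb1 : b 1 = 0 := hK.br1
  have ham : a m = 0 := hK.am
  have hbm : 0 < b m := by have := hK.left; rwa [hb0] at this
  have ha1 : 0 < a 1 := by have := hK.bot; rwa [ha0] at this
  have hm2 : 2 ≤ m := by
    rcases Nat.lt_or_ge m 2 with h | h
    · exfalso
      have : m = 1 := by omega
      rw [this] at ham
      linarith
    · exact h
  have hXr : 0 < X r := by have := hX 0 r (by omega) le_rfl; rwa [hX0] at this
  have hY0 : 0 < Y 0 := by have := hY 0 r (by omega) le_rfl; rwa [hYr] at this
  -- the outer vertices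
  have hak : ∀ k, 1 ≤ k → k ≤ m → 0 ≤ a k := by
    intro k h1 h2
    rcases Nat.lt_or_ge k m with h | h
    · have := hK.conv 0 k m (by omega) h le_rfl
      rw [ha0, hb0, ham] at this
      have h3 : 0 < a k * b m := by nlinarith [this]
      exact le_of_lt (pos_of_mul_pos_left h3 hbm.le)
    · have : k = m := by omega
      rw [this, ham]
  have hbk : ∀ k, 1 ≤ k → k ≤ m → 0 ≤ b k := by
    intro k h1 h2
    rcases Nat.eq_or_lt_of_le h1 with h | h
    · rw [← h, hb1]
    · have := hK.conv 0 1 k (by omega) h h2
      rw [ha0, hb0, hb1] at this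
      have h3 : 0 < a 1 * b k := by nlinarith [this]
      exact le_of_lt (pos_of_mul_pos_right h3 ha1.le)
  have hab : ∀ k, 1 ≤ k → k ≤ m → a 1 * b m ≤ a k * b m + b k * a 1 := by
    intro k h1 h2
    rcases Nat.eq_or_lt_of_le h1 with h | h
    · rw [← h, hb1]; linarith
    rcases Nat.lt_or_ge k m with h' | h'
    · have := hK.conv 1 k m h h' le_rfl
      rw [hb1, ham] at this
      nlinarith [this]
    · have : k = m := by omega
      rw [this, ham]; linarith
  refine ⟨by omega, ?_, ?_, ?_, ?_, ?_, ?_, ?_⟩
  · intro i j k hij hjk hk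
    rcases Nat.lt_or_ge r k with hrk | hrk
    swap
    · have e1 : glu r X a i = X i := if_pos (by omega)
      have e2 : glu r X a j = X j := if_pos (by omega)
      have e3 : glu r X a k = X k := if_pos (by omega)
      have e4 : glu r Y b i = Y i := if_pos (by omega)
      have e5 : glu r Y b j = Y j := if_pos (by omega)
      have e6 : glu r Y b k = Y k := if_pos (by omega)
      rw [e1, e2, e3, e4, e5, e6]
      exact hN i j k hij hjk hrk
    have e3 : glu r X a k = a (k - r) := if_neg (by omega)
    have e6 : glu r Y b k = b (k - r) := if_neg (by omega)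
    rcases Nat.lt_or_ge r j with hrj | hrj
    · have e2 : glu r X a j = a (j - r) := if_neg (by omega)
      have e5 : glu r Y b j = b (j - r) := if_neg (by omega)
      rcases Nat.lt_or_ge r i with hri | hri
      · have e1 : glu r X a i = a (i - r) := if_neg (by omega)
        have e4 : glu r Y b i = b (i - r) := if_neg (by omega)
        rw [e1, e2, e3, e4, e5, e6]
        exact hK.conv (i - r) (j - r) (k - r) (by omega) (by omega) (by omega)
      · have e1 : glu r X a i = X i := if_pos (by omega)
        have e4 : glu r Y b i = Y i := if_pos (by omega)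
        rw [e1, e2, e3, e4, e5, e6]
        obtain ⟨j', hj'⟩ : ∃ j', j' = j - r := ⟨_, rfl⟩
        obtain ⟨k', hk'⟩ : ∃ k', k' = k - r := ⟨_, rfl⟩
        rw [← hj', ← hk']
        have hj1 : 1 ≤ j' := by omega
        have hjk' : j' < k' := by omega
        have hkm : k' ≤ m := by omega
        -- values of g at O, (a1,0), (0,bm)
        have g0 : 0 < a j' * b k' - b j' * a k' := by
          have := hK.conv 0 j' k' (by omega) hjk' hkm
          rw [ha0, hb0] at this
          nlinarith [this]
        have g1 : 0 ≤ (a k' - a j') * (0 - b j') - (b k' - b j') * (a 1 - a j') := by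
          rcases Nat.eq_or_lt_of_le hj1 with h | h
          · rw [← h, hb1]; nlinarith
          · have := hK.conv 1 j' k' h hjk' hkm
            rw [hb1] at this
            nlinarith [this]
        have g2 : 0 ≤ (a k' - a j') * (b m - b j') - (b k' - b j') * (0 - a j') := by
          rcases Nat.lt_or_ge k' m with h | h
          · have := hK.conv j' k' m hjk' h le_rfl
            rw [ham] at this
            nlinarith [this]
          · have : k' = m := by omega
            rw [this, ham]; nlinarith
        -- position of P_i
        have hXi : 0 ≤ X i := by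
          rcases Nat.eq_zero_or_pos i with h | h
          · rw [h, hX0]
          · have := hX 0 i h hri; rw [hX0] at this; exact this.le
        have hYi : 0 ≤ Y i := by
          rcases Nat.lt_or_ge i r with h | h
          · have := hY i r h le_rfl; rw [hYr] at this; exact this.le
          · have : i = r := by omega
            rw [this, hYr]
        have hXir : X i ≤ X r := by
          rcases Nat.lt_or_ge i r with h | h
          · exact (hX i r h le_rfl).le
          · have : i = r := by omega
            rw [this]
        have hYi0 : Y i ≤ Y 0 := by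
          rcases Nat.eq_zero_or_pos i with h | h
          · rw [h]
          · exact (hY 0 i h hri).le
        have hch : X i * Y 0 + Y i * X r ≤ X r * Y 0 := by
          rcases Nat.eq_zero_or_pos i with h | h
          · rw [h, hX0]; linarith
          rcases Nat.lt_or_ge i r with h' | h'
          · have := hN 0 i r h h' le_rfl
            rw [hX0, hYr] at this
            nlinarith [this]
          · have : i = r := by omega
            rw [this, hYr]; linarith
        -- α + β < 1
        have hpos : 0 < a 1 * b m - X i * b m - Y i * a 1 := by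
          -- (a1 - Xi)(bm - Yi) - Xi Yi
          have f1 : 0 ≤ (X r - X i) * (b m - Y 0) :=
            mul_nonneg (by linarith) (by linarith)
          have f2 : 0 ≤ (a 1 - X r) * (Y 0 - Y i) :=
            mul_nonneg (by linarith) (by linarith)
          have f3 : 0 < (a 1 - X r) * (b m - Y 0) :=
            mul_pos (by linarith) (by linarith)
          nlinarith [f1, f2, f3, hch]
        -- a1 bm * cross = combination
        have hid : a 1 * b m * ((a j' - X i) * (b k' - Y i) - (b j' - Y i) * (a k' - X i)) =
            (a 1 * b m - X i * b m - Y i * a 1) * (a j' * b k' - b j' * a k') +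
            X i * b m * ((a k' - a j') * (0 - b j') - (b k' - b j') * (a 1 - a j')) +
            Y i * a 1 * ((a k' - a j') * (b m - b j') - (b k' - b j') * (0 - a j')) := by
          ring
        have hR : 0 < a 1 * b m *
            ((a j' - X i) * (b k' - Y i) - (b j' - Y i) * (a k' - X i)) := by
          rw [hid]
          have t1 := mul_pos hpos g0
          have t2 : 0 ≤ X i * b m *
              ((a k' - a j') * (0 - b j') - (b k' - b j') * (a 1 - a j')) :=
            mul_nonneg (mul_nonneg hXi hbm.le) g1
          have t3 : 0 ≤ Y i * a 1 *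
              ((a k' - a j') * (b m - b j') - (b k' - b j') * (0 - a j')) :=
            mul_nonneg (mul_nonneg hYi ha1.le) g2
          linarith
        exact pos_of_mul_pos_right hR (mul_pos ha1 hbm).le
    · have e1 : glu r X a i = X i := if_pos (by omega)
      have e2 : glu r X a j = X j := if_pos (by omega)
      have e4 : glu r Y b i = Y i := if_pos (by omega)
      have e5 : glu r Y b j = Y j := if_pos (by omega)
      rw [e1, e2, e3, e4, e5, e6]
      obtain ⟨k', hk'⟩ : ∃ k', k' = k - r := ⟨_, rfl⟩
      rw [← hk']
      have hk1 : 1 ≤ k' := by omega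
      have hkm : k' ≤ m := by omega
      obtain ⟨U, hU⟩ : ∃ U, U = X j - X i := ⟨_, rfl⟩
      obtain ⟨V, hV⟩ : ∃ V, V = Y i - Y j := ⟨_, rfl⟩
      have hUp : 0 < U := by rw [hU]; linarith [hX i j hij hrj]
      have hVp : 0 < V := by rw [hV]; linarith [hY i j hij hrj]
      obtain ⟨c, hcdef⟩ : ∃ c, c = U * Y i + V * X i := ⟨_, rfl⟩
      have hXi : 0 ≤ X i := by
        rcases Nat.eq_zero_or_pos i with h | h
        · rw [h, hX0]
        · have := hX 0 i h (by omega); rw [hX0] at this; exact this.le
      have hYi : 0 ≤ Y i := by
        have := hY i r (by omega) le_rfl; rw [hYr] at this; exact this.le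
      have hc0 : 0 ≤ c := by
        rw [hcdef]
        exact add_nonneg (mul_nonneg hUp.le hYi) (mul_nonneg hVp.le hXi)
      have hS : c ≤ V * X r := by
        rcases Nat.lt_or_ge j r with h | h
        · have := hN i j r hij h le_rfl
          rw [hYr] at this
          rw [hcdef, hU, hV]
          nlinarith [this]
        · have h' : j = r := by omega
          rw [hcdef, hU, hV, h', hYr]
          nlinarith
      have hT : c ≤ U * Y 0 := by
        rcases Nat.eq_zero_or_pos i with h | h
        · rw [hcdef, hU, hV, h, hX0]; nlinarith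
        · have := hN 0 i j h hij hrj
          rw [hX0] at this
          rw [hcdef, hU, hV]
          nlinarith [this]
      have hS' : c < V * a 1 := lt_of_le_of_lt hS (mul_lt_mul_of_pos_left hXa hVp)
      have hT' : c < U * b m := lt_of_le_of_lt hT (mul_lt_mul_of_pos_left hYb hUp)
      have hak' := hak k' hk1 hkm
      have hbk' := hbk k' hk1 hkm
      have hab' := hab k' hk1 hkm
      have hp1 : 0 ≤ a k' * b m := mul_nonneg hak' hbm.le
      have hp2 : 0 ≤ b k' * a 1 := mul_nonneg hbk' ha1.le
      have hR : 0 < a 1 * b m * (V * a k' + U * b k' - c) := by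
        have hid : a 1 * b m * (V * a k' + U * b k' - c) =
            (V * a 1 - c) * (a k' * b m) + (U * b m - c) * (b k' * a 1) +
            c * (a k' * b m + b k' * a 1 - a 1 * b m) := by ring
        rw [hid]
        have t1 : 0 ≤ c * (a k' * b m + b k' * a 1 - a 1 * b m) :=
          mul_nonneg hc0 (by linarith)
        have t2 : 0 ≤ (V * a 1 - c) * (a k' * b m) := mul_nonneg (by linarith) hp1
        have t3 : 0 ≤ (U * b m - c) * (b k' * a 1) := mul_nonneg (by linarith) hp2
        rcases eq_or_lt_of_le hp1 with h | h
        · have h2 : 0 < b k' * a 1 := by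
            have : 0 < a 1 * b m := mul_pos ha1 hbm
            linarith
          have : 0 < (U * b m - c) * (b k' * a 1) := mul_pos (by linarith) h2
          linarith
        · have : 0 < (V * a 1 - c) * (a k' * b m) := mul_pos (by linarith) h
          linarith
      have hR2 : 0 < V * a k' + U * b k' - c :=
        pos_of_mul_pos_right hR (mul_pos ha1 hbm).le
      rw [hcdef, hU, hV] at hR2
      nlinarith [hR2]
  · show glu r X a 0 = 0
    have : glu r X a 0 = X 0 := if_pos (by omega)
    rw [this, hX0]
  · show glu r X a (m + r) = 0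
    have : glu r X a (m + r) = a (m + r - r) := if_neg (by omega)
    rw [this, Nat.add_sub_cancel, ham]
  · show glu r Y b 0 < glu r Y b (m + r)
    have h1 : glu r Y b 0 = Y 0 := if_pos (by omega)
    have h2 : glu r Y b (m + r) = b (m + r - r) := if_neg (by omega)
    rw [h1, h2, Nat.add_sub_cancel]
    exact hYb
  · show glu r Y b r = 0
    have : glu r Y b r = Y r := if_pos (by omega)
    rw [this, hYr]
  · show glu r Y b (r + 1) = 0
    have : glu r Y b (r + 1) = b (r + 1 - r) := if_neg (by omega)
    rw [this, Nat.add_sub_cancel_left, hb1]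
  · show glu r X a r < glu r X a (r + 1)
    have h1 : glu r X a r = X r := if_pos (by omega)
    have h2 : glu r X a (r + 1) = a (r + 1 - r) := if_neg (by omega)
    rw [h1, h2, Nat.add_sub_cancel_left]
    exact hXa

end Pool.Agent.Work.MP_b5407d_pos_h29_glue
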