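import Pool.Agent.Work.MP_b5407d_pos_helper13.Blocks

/-! MP_b5407d_gt, block GLUW (helper29) -/

set_option autoImplicit false

namespace Pool.Agent.Work.MP_b5407d_pos_h29_gluw

open Pool.Agent.Work.MP_b5407d_pos_h13

/-- monotonicity from steps -/
theorem mono_of_step {r : ℕ} {X : ℕ → ℝ} (h : ∀ k < r, X k ≤ X (k + 1)) :
    ∀ i j, i ≤ j → j ≤ r → X i ≤ X j := by
  intro i j hij
  induction j, hij using Nat.le_induction with
  | base => intro _; exact le_refl _
  | succ j hj ih => intro hr; exact le_trans (ih (by omega)) (h j (by omega))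

theorem anti_of_step {r : ℕ} {Y : ℕ → ℝ} (h : ∀ k < r, Y (k + 1) ≤ Y k) :
    ∀ i j, i ≤ j → j ≤ r → Y j ≤ Y i := by
  intro i j hij
  induction j, hij using Nat.le_induction with
  | base => intro _; exact le_refl _
  | succ j hj ih => intro hr; exact le_trans (h j (by omega)) (ih (by omega))

theorem blk_GLUW : Stmt_GLUW := by
  intro r X Y A B hA hB hX0 hYr hmono hconv hXA hYB hX1 hY1 hX2 hY2
  have hX := mono_of_step (r := r) (X := X) (fun k hk => (hmono k hk).1)
  have hY := anti_of_step (r := r) (Y := Y) (fun k hk => (hmono k hk).2)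
  intro i j k hij hjk hk
  rcases Nat.lt_or_ge r k with hrk | hrk
  swap
  · exact hconv i j k hij hjk hrk
  rcases Nat.lt_or_ge r j with hrj | hrj
  · -- j = r+1, k = r+2
    have hj : j = r + 1 := by omega
    have hk' : k = r + 2 := by omega
    subst hj; subst hk'
    rw [hX1, hX2, hY1, hY2]
    have hir : i ≤ r := by omega
    have h1 : X i ≤ X r := hX i r hir le_rfl
    have h2 : Y i ≤ Y 0 := hY 0 i (Nat.zero_le _) hir
    have h0 : X 0 ≤ X i := hX 0 i (Nat.zero_le _) hir
    have h0' : Y r ≤ Y i := hY i r hir le_rfl
    have key : 0 ≤ X r * Y 0 - X r * Y i - Y 0 * X i := by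
      rcases Nat.eq_zero_or_pos i with hi | hi
      · subst hi; rw [hX0]; linarith
      rcases Nat.lt_or_ge i r with hir2 | hir2
      · have := hconv 0 i r hi hir2 le_rfl
        rw [hX0, hYr] at this
        nlinarith [this]
      · have : i = r := by omega
        subst this
        rw [hYr]
        linarith
    rw [hX0] at h0
    rw [hYr] at h0'
    have e1 : 0 ≤ (A - X r) * (B - Y i) := mul_nonneg (by linarith) (by linarith)
    have e2 : 0 ≤ (X r - X i) * (B - Y 0) := mul_nonneg (by linarith) (by linarith)
    nlinarith [e1, e2, key]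
  · -- j ≤ r < k
    have hU : X i ≤ X j := hX i j (by omega) hrj
    have hV : Y j ≤ Y i := hY i j (by omega) hrj
    rcases Nat.lt_or_ge k (r + 2) with hk2 | hk2
    · have hk' : k = r + 1 := by omega
      subst hk'
      rw [hX1, hY1]
      have key : 0 ≤ (X j - X i) * (0 - Y i) - (Y j - Y i) * (X r - X i) := by
        rcases Nat.lt_or_ge j r with hjr | hjr
        · have := hconv i j r hij hjr le_rfl
          rw [hYr] at this
          exact this
        · have : j = r := by omega
          subst this
          rw [hYr]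
          nlinarith
      have e1 : 0 ≤ (Y i - Y j) * (A - X r) := mul_nonneg (by linarith) (by linarith)
      nlinarith [e1, key]
    · have hk' : k = r + 2 := by omega
      subst hk'
      rw [hX2, hY2]
      have key : 0 ≤ (X j - X i) * (Y 0 - Y i) - (Y j - Y i) * (0 - X i) := by
        rcases Nat.eq_zero_or_pos i with hi | hi
        · subst hi; rw [hX0]; nlinarith
        · have := hconv 0 i j hi hij hrj
          rw [hX0] at this
          nlinarith [this]
      have e1 : 0 ≤ (X j - X i) * (B - Y 0) := mul_nonneg (by linarith) (by linarith)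
      nlinarith [e1, key]

end Pool.Agent.Work.MP_b5407d_pos_h29_gluw
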